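import Pool.Agent.H73.PHS.Final
import Pool.Agent.H73.LPC.Final
import Pool.Agent.H74.SMD.FU2
import Pool.Agent.H70.SMD.GRA
import Pool.Agent.H85.SMD.EXB
import Pool.Agent.H54.SMD.CNE
import Pool.Agent.H53.SMD.HFI
import Pool.Agent.H49.SMD.TAN
import Pool.Agent.H45.SMD.ORD
import Pool.Agent.H77.SMD.POI
import Pool.Agent.H4.SMD.SEQ
import Pool.Agent.H89.SMD.SEL
import Pool.Agent.H93.SMD.NUU
import Pool.Agent.H72.SMD.LEV
import Pool.Agent.H77.SMD.FIN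
import Pool.Agent.H46.SMD.KEY
import Pool.Agent.H18.SMD.LI1
import Pool.Agent.H22.SMD.RET
import Pool.Agent.H78.SMD.HHH
import Pool.Agent.H27.SMD.MAI

/-!
# Board SMD: assembly
-/

set_option autoImplicit false

open Set Filter Topology

namespace Pool.SMD

theorem f_FU2 : FU2Stmt := FU2_thm Pool.PHS.f_LIM Pool.PHS.f_IDN Pool.PHS.f_IT1 Pool.PHS.f_SRJ
theorem f_GRA : GRAStmt := GRA_thm
theorem f_EXB : EXBStmt := EXB_thm Pool.PHS.f_LIM Pool.LPC.f_ITP Pool.LPC.f_CNN Pool.LPC.f_HEX Pool.LPC.f_LIX Pool.LPC.f_RKE Pool.LPC.f_RKC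
theorem f_CNE : CNEStmt := CNE_thm
theorem f_HFI : HFIStmt := HFI_thm f_CNE
theorem f_TAN : TANStmt := TAN_thm
theorem f_ORD : ORDStmt := ORD_thm
theorem f_POI : POIStmt := POI_thm
theorem f_SEQ : SEQStmt := SEQ_thm Pool.PHS.f_LIM
theorem f_SEL : SELStmt := SEL_thm
theorem f_NUU : NUUStmt := NUU_thm
theorem f_LEV : LEVStmt := LEV_thm Pool.LPC.f_LOC
theorem f_FIN : FINStmt := FIN_thm f_ORD f_TAN f_CNE f_LEV
theorem f_KEY : KEYStmt := KEY_thm f_SEL f_NUU f_POI f_HFI f_EXB f_GRA f_FIN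
theorem f_LI1 : LI1Stmt := LI1_thm Pool.PHS.f_LIM Pool.PHS.f_IT1 f_SEQ
theorem f_RET : RETStmt := RET_thm f_LEV
theorem f_HHH : HHHStmt := HHH_thm Pool.PHS.f_IDN
theorem f_MAI : MAIStmt := MAI_thm Pool.PHS.f_IDN Pool.LPC.f_ASM f_LI1 f_FU2 f_RET f_HHH f_KEY

end Pool.SMD
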