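import Pool.Agent.H73.LPC.Stmts

/-!
# Board SMD: smooth domains of ℂ², proper self-maps which are not compactly divergent (MP_e1af46)

THEOREM.  Let `D = {r < 0}` be a bounded domain of `ℂ²` with `C¹` boundary and `f` a proper holomorphic
self-map of `D` which is not compactly divergent (`f^[k j] z → w` for some `z, w ∈ D` and `k j → ∞`;
for instance `f` has a fixed point in `D`).  Then `f` is biholomorphic or `D` is pseudoconvex.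

PROOF.  LI1: there are limits `g` and `h` of iterates with `h = id` on `g (D) ∩ D`.  If the Jacobian
determinant of one of them is not identically zero, `f` is biholomorphic (FU2).  Otherwise both have
rank at most one.  If `g` is constant use board LPC (ASM).  If not, `h ∘ h = h` on the component `C₀` of
`{z ∈ D | h z ∈ D}` (RET, HHH).  If `C₀ = D`, then `h` maps `D` to `D` and LPC applies.  Otherwise there
is a holomorphic disc `ψ` in the closure of `D`, touching the boundary at `ψ 0`, with `h (ψ u) = ψ u`,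
`ψ u ∈ D` in a sector (SEL).  The Hartogs figure `Φ (u, w) = ψ u + ε (φ u - 88 (1 + w)) ν`, `ν` the
outward normal, `φ` a Poisson kernel minus `1/2`, extends `h ∘ Φ` over the boundary to a map `G` of rank
one with `G = ψ` on the graph `w = -1 + φ / 88` (HFI, EXB, GRA), and `G` maps boundary points to boundary
points.  The boundary is tangent to `ψ` at `ψ 0`, so the boundary point over `u` is much closer to
`ψ u` than to `ψ 0`; its image is `ψ u'` with `u' ≈ u`, which lies in `D`: contradiction (FIN).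
-/

set_option autoImplicit false

open Set Filter Topology MeasureTheory Metric

namespace Pool.SMD

open Pool.PHS Pool.LPC

/-- bounded domains with `C¹` boundary -/
structure SD (r : Cn 2 → ℝ) : Prop where
  c1 : ContDiff ℝ 1 r
  nd : ∀ z, r z = 0 → fderiv ℝ r z ≠ 0
  bd : Bornology.IsBounded {z | r z < 0}
  cn : IsConnected {z | r z < 0}

/-- `f` has a holomorphic inverse on `D` -/
def Inv {n : ℕ} (D : Set (Cn n)) (f : Cn n → Cn n) : Prop :=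
  ∃ P : Cn n → Cn n, MapsTo P D D ∧ DifferentiableOn ℂ P D ∧ (∀ z ∈ D, P (f z) = z) ∧
    ∀ z ∈ D, f (P z) = z

/-- the auxiliary function: a Poisson kernel minus `1/2` -/
structure Aux (φ : ℂ → ℂ) : Prop where
  hol : DifferentiableOn ℂ φ (ball 0 (1 + 1 / 100))
  bd : ∀ u ∈ ball (0 : ℂ) (1 + 1 / 100), ‖φ u‖ ≤ 22
  zero : φ 0 = 1 / 2
  neg : ∀ u : ℂ, 1 - 1 / 100 < ‖u‖ → ‖u‖ < 1 + 1 / 100 → 3 * u.re ≤ 2 * ‖u‖ → (φ u).re ≤ -(1 / 8)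

/-- the Hartogs figures -/
noncomputable def Phi (ψ : ℂ → Cn 2) (φ : ℂ → ℂ) (ν : Cn 2) (ρ ε : ℝ) (p : ℂ × ℂ) : Cn 2 :=
  ψ ((ρ : ℂ) * p.1) + ((ε : ℂ) * (φ p.1 - 88 * (1 + p.2))) • ν

/-- the graph on which `Phi = ψ` -/
noncomputable def gr (φ : ℂ → ℂ) (u : ℂ) : ℂ := -1 + φ u / 88

/-! ## Part 1: limits of iterates -/

/-- SEQ: from filters to sequences.  Proof: LIM of board PHS: along `l` the convergence is uniform on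
compact subsets of `D`; take an exhaustion of `D` by compact sets and choose the `j i` successively,
strictly increasing (`l ≤ atTop`).  Needs LIM. -/
def SEQStmt : Prop :=
  ∀ (n : ℕ) (D : Set (Cn n)) (f g : Cn n → Cn n) (κ : ℕ → ℕ) (l : Filter ℕ), l.NeBot → l ≤ atTop →
    IsOpen D → Bornology.IsBounded D → ProperSelf D f →
    (∀ z ∈ D, Tendsto (fun j => f^[κ j] z) l (𝓝 (g z))) →
    ∃ j : ℕ → ℕ, StrictMono j ∧ ∀ z ∈ D, Tendsto (fun i => f^[κ (j i)] z) atTop (𝓝 (g z))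

/-- LI1: the limits `g` and `h`.  Proof: pass to a subsequence of `k` for which the differences
`k (j+1) - k j` are strictly increasing and positive.  Let `l` be an ultrafilter finer than `atTop`,
`g` the limit of `f^[k j]` and `h` the limit of `f^[k (j+1) - k j]` along `l` (IT1).  If `g z ∈ D` then
`f^[k (j+1)] z = f^[k (j+1) - k j] (f^[k j] z) → h (g z)` along `l` (locally uniform convergence near
`g z`).  But this should be `g z`: choose `g` as the limit of a subsequence which converges on `D`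
(SEQ), make the differences increasing again, and then take `h`.  SEQ for `h`.
Needs LIM IT1 SEQ. -/
def LI1Stmt : Prop :=
  ∀ (n : ℕ) (D : Set (Cn n)) (f : Cn n → Cn n) (k : ℕ → ℕ) (z w : Cn n), IsOpen D →
    IsConnected D → Bornology.IsBounded D → ProperSelf D f → StrictMono k → z ∈ D → w ∈ D →
    Tendsto (fun j => f^[k j] z) atTop (𝓝 w) →
    ∃ (g h : Cn n → Cn n) (k' m : ℕ → ℕ), StrictMono k' ∧ StrictMono m ∧ (∀ i, 1 ≤ m i) ∧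
      (∀ y ∈ D, Tendsto (fun j => f^[k' j] y) atTop (𝓝 (g y))) ∧
      (∀ y ∈ D, Tendsto (fun j => f^[m j] y) atTop (𝓝 (h y))) ∧ g z = w ∧
      DifferentiableOn ℂ g D ∧ DifferentiableOn ℂ h D ∧ MapsTo g D (closure D) ∧
      MapsTo h D (closure D) ∧ ∀ y ∈ D, g y ∈ D → h (g y) = g y

/-- FU2: limits of full rank, without the assumption that `D` is mapped to `D`.  Proof: as FUL of board
LPC (Pool/Agent/H2/LPC/FUL.lean): near `z₁` the map `g` is open, so `g (D)` contains a nonempty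
open set `V ⊆ closure D`, and `V ∩ D` is open and not empty; the limit `h` of `f^[k (j+1) - k j]`
(along an ultrafilter) is the identity on `V ∩ D`, so on `D`.  Needs LIM IDN IT1 SRJ. -/
def FU2Stmt : Prop :=
  ∀ (n : ℕ) (D : Set (Cn n)) (f g : Cn n → Cn n) (k : ℕ → ℕ) (z₁ : Cn n), IsOpen D →
    IsConnected D → Bornology.IsBounded D → ProperSelf D f → StrictMono k →
    (∀ z ∈ D, Tendsto (fun j => f^[k j] z) atTop (𝓝 (g z))) → z₁ ∈ D → jac g z₁ ≠ 0 → Inv D f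

/-! ## Part 2: maps of rank one -/

/-- LEV: level sets meet the line `w = 0`.  Proof: let `L` be a Lipschitz constant on a smaller bidisc,
`λ` with `c λ^m > C + 1`, `κ` small (`L κ < 1/8`, `λ κ` small).  Let `y = E (u₀, w₀)`; for `|u| = λ ρ`,
`|w| < 2 κ ρ^m`, `‖E (u, w) - E (0, 0)‖ ≥ c λ^m ρ^m - 2 L κ ρ^m > ‖y - E (0, 0)‖`.  So the set of
`w` with `|w| < 2 κ ρ^m` (take `w₀` in it) for which `E (u', w) = y` for some `|u'| < λ ρ` is closed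
in the disc; it is open by LOC of board LPC (`E (·, w) = y` near `u'` would give it up to
`|u'| = λ ρ`).  So it contains `0`.  Needs LOC. -/
def LEVStmt : Prop :=
  ∀ (n m : ℕ) (R c C : ℝ) (E : ℂ × ℂ → Cn n), 1 ≤ m → 0 < R → 0 < c → 0 < C →
    DifferentiableOn ℂ E (ball 0 R ×ˢ ball 0 R) → RankOne E (ball 0 R ×ˢ ball 0 R) →
    (∀ u ∈ ball (0 : ℂ) R, c * ‖u‖ ^ m ≤ ‖E (u, 0) - E (0, 0)‖ ∧
      ‖E (u, 0) - E (0, 0)‖ ≤ C * ‖u‖ ^ m) →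
    ∃ κ L : ℝ, 0 < κ ∧ 0 < L ∧ ∀ (ρ : ℝ) (u w : ℂ), 0 < ρ → ρ < κ → ‖u‖ ≤ ρ → ‖w‖ ≤ κ * ρ ^ m →
      ∃ u', ‖u'‖ ≤ L * ρ ∧ ‖u'‖ < R ∧ E (u', 0) = E (u, w)

/-- ORD: the order of a disc.  Proof: `ψ u - ψ 0 = u^m (c + O(u))`, `c ≠ 0`
(`AnalyticAt.exists_eventuallyEq_pow_smul_nonzero_iff`); for the last one
`‖ψ u - ψ v - (u - v) ψ'(0)‖ ≤ ‖ψ'(0)‖/2 ‖u - v‖` near `0`. -/
def ORDStmt : Prop :=
  ∀ (n : ℕ) (ψ : ℂ → Cn n), DifferentiableOn ℂ ψ (ball 0 2) →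
    ((¬ ∀ᶠ u in 𝓝 (0 : ℂ), ψ u = ψ 0) → ∃ (m : ℕ) (c C κ : ℝ), 1 ≤ m ∧ 0 < c ∧ 0 < C ∧ 0 < κ ∧
      ∀ u ∈ ball (0 : ℂ) κ, c * ‖u‖ ^ m ≤ ‖ψ u - ψ 0‖ ∧ ‖ψ u - ψ 0‖ ≤ C * ‖u‖ ^ m) ∧
    (deriv ψ 0 ≠ 0 → ∃ c C κ : ℝ, 0 < c ∧ 0 < C ∧ 0 < κ ∧ ∀ u ∈ ball (0 : ℂ) κ,
      ∀ v ∈ ball (0 : ℂ) κ, c * ‖u - v‖ ≤ ‖ψ u - ψ v‖ ∧ ‖ψ u - ψ v‖ ≤ C * ‖u - v‖)

/-- RET: `h` is a retraction near a disc of fixed points.  Proof: let `e` be a vector such that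
`γ' t₀`, `e` is a basis, `E (u, w) = h (γ (t₀ + u) + w • e)` near `(0, 0)`; `E (u, 0) = γ (t₀ + u)`, the
rank is one as `jac h = 0`; by LEV (`m = 1`, ORD type bounds, fixed `ρ`) all values of `E` near `(0, 0)`
are values of `γ` at points near `t₀`, where `h (γ t) = γ t`.  The points `γ (t₀ + u) + w • e` fill a
neighbourhood of `γ t₀` (inverse function theorem).  Needs LEV. -/
def RETStmt : Prop :=
  ∀ (D : Set (Cn 2)) (h : Cn 2 → Cn 2) (γ : ℂ → Cn 2) (t₀ : ℂ) (R : ℝ), IsOpen D →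
    DifferentiableOn ℂ h D → (∀ z ∈ D, jac h z = 0) → 0 < R → DifferentiableOn ℂ γ (ball t₀ R) →
    (∀ t ∈ ball t₀ R, γ t ∈ D ∧ h (γ t) = γ t) → deriv γ t₀ ≠ 0 →
    ∃ O : Set (Cn 2), IsOpen O ∧ γ t₀ ∈ O ∧ O ⊆ D ∧ ∀ y ∈ O, h y ∈ D ∧ h (h y) = h y

/-- HHH: the component.  Proof: `{z ∈ D | h z ∈ D}` is open; identity theorem (IDN) for `h ∘ h` and `h` on
the component (open and connected); a point of the closure of the component with `z, h z ∈ D` is in the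
component.  Needs IDN. -/
def HHHStmt : Prop :=
  ∀ (n : ℕ) (D O : Set (Cn n)) (h : Cn n → Cn n) (y₀ : Cn n), IsOpen D → DifferentiableOn ℂ h D →
    IsOpen O → y₀ ∈ O → O ⊆ D → (∀ y ∈ O, h y ∈ D ∧ h (h y) = h y) →
    ∃ C₀ : Set (Cn n), IsOpen C₀ ∧ C₀.Nonempty ∧ C₀ ⊆ D ∧ (∀ z ∈ C₀, h z ∈ D ∧ h (h z) = h z) ∧
      ∀ z ∈ D, z ∈ closure C₀ → z ∉ C₀ → h z ∉ D

/-- SEL: the touching disc.  Proof: let `z₀ ∈ D`, `z₀ ∈ closure C₀ \ C₀` (`D` is connected),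
`ball z₀ τ ⊆ D`, `z₁ ∈ C₀` close to `z₀`, `ψ₀ t = h (z₀ + t • (z₁ - z₀))` for `‖t‖ < 1 + η`, `T₁` the
component of `{t | z₀ + t (z₁ - z₀) ∈ C₀}` which contains `1`; `0 ∉ T₁`.  `ψ₀ t ∈ D` and
`h (ψ₀ t) = ψ₀ t` on `T₁`, `ψ₀ t ∉ D` at the boundary points of `T₁` in the disc.  Take such a boundary
point `t'` and `κ` with `ψ₀' ≠ 0` for `0 < |t - t'| < κ` (`ψ₀` is not constant).  If all
`0 < |t - t'| < κ` are in `T₁` let `ψ u = ψ₀ (t' + (κ/2) u)` (second case).  Otherwise there is a boundary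
point `t₅ ≠ t'`, `|t₅ - t'| < κ`; for `t₄ ∈ T₁` very close to `t₅` the largest disc `ball t₄ R` in
`T₁` touches the boundary at `t₃` near `t₅`, `t₃ ≠ t'`, so `ψ₀' t₃ ≠ 0`; let
`ψ u = ψ₀ (t₃ + s u)` with `s` a multiple of `t₄ - t₃`, `|s| ≤ R / 2`: if `‖u‖ < 2 Re u`, `‖u‖ < 2`
then `t₃ + s u` is in the disc (`|s u|² < 2 R Re (..)`). -/
def SELStmt : Prop :=
  ∀ (D C₀ : Set (Cn 2)) (h : Cn 2 → Cn 2), IsOpen D → IsConnected D → DifferentiableOn ℂ h D →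
    MapsTo h D (closure D) → IsOpen C₀ → C₀.Nonempty → C₀ ⊆ D → C₀ ≠ D →
    (∀ z ∈ C₀, h z ∈ D ∧ h (h z) = h z) → (∀ z ∈ D, z ∈ closure C₀ → z ∉ C₀ → h z ∉ D) →
    ∃ ψ : ℂ → Cn 2, DifferentiableOn ℂ ψ (ball 0 2) ∧ (∀ u ∈ ball (0 : ℂ) 2, ψ u ∈ closure D) ∧
      ψ 0 ∉ D ∧ (∀ u ∈ ball (0 : ℂ) 2, ‖u‖ < 2 * u.re → ψ u ∈ D ∧ h (ψ u) = ψ u) ∧
      (deriv ψ 0 ≠ 0 ∨ ∀ u ∈ ball (0 : ℂ) 2, u ≠ 0 → ψ u ∈ D)

/-! ## Part 3: the Hartogs figure at the touching point -/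

/-- POI: Proof: `φ u = (1 + 0.9 u) / (1 - 0.9 u) - 1/2`; its real part is
`(1 - |v|²) / |1 - v|² - 1/2`, `v = 0.9 u`. -/
def POIStmt : Prop := ∃ φ : ℂ → ℂ, Aux φ

/-- NUU: the normal vector.  Proof: the map `ξ ↦ fderiv r x ξ - i fderiv r x (i ξ)` is complex linear and
not zero; take `ν` with value `1`. -/
def NUUStmt : Prop :=
  ∀ (r : Cn 2 → ℝ) (x : Cn 2), fderiv ℝ r x ≠ 0 → ∃ ν : Cn 2, ∀ c : ℂ, fderiv ℝ r x (c • ν) = c.re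

/-- CNE: cone properties.  Proof: on a ball `2 κ₁ (1 + ‖ν‖)` the derivative differs from
`fderiv r x` by less than `min (κ₂, 1) / (2 (1 + ‖ν‖))`; mean value. -/
def CNEStmt : Prop :=
  ∀ (r : Cn 2 → ℝ) (x ν : Cn 2), ContDiff ℝ 1 r → (∀ c : ℂ, fderiv ℝ r x (c • ν) = c.re) →
    ∀ κ₂ : ℝ, 0 < κ₂ → ∃ κ₁ : ℝ, 0 < κ₁ ∧
      (∀ (y : Cn 2) (c : ℂ), ‖y - x‖ ≤ κ₁ → ‖c‖ ≤ κ₁ → r y ≤ 0 → c ≠ 0 → c.re ≤ -(κ₂ * ‖c‖) →
        r (y + c • ν) < 0) ∧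
      ∀ (y : Cn 2) (b : ℝ), ‖y - x‖ ≤ κ₁ → 0 ≤ b → b ≤ κ₁ → r y + b / 2 ≤ r (y + (b : ℂ) • ν)

/-- HFI: the Hartogs figure.  `δ = 1/2000`.  Proof: `κ₁` from CNE with `κ₂ = 1/300`; `ρ ≤ 1` with
`‖ψ (ρ u) - x‖ ≤ κ₁ / 2` for `‖u‖ ≤ 3/2`; the set of the `ψ (ρ u)` with `1/2 ≤ ‖u‖ ≤ 3/2`,
`2 ‖u‖ ≤ 3 Re u` is a compact subset of `D`; `ε` with `200 ε ≤ κ₁`, `200 ε ‖ν‖ ≤ κ₁ / 2` and
such that `200 ε ‖ν‖` is less than the distance of this compact set to the complement of `D`.  Let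
`c = ε (φ u - 88 (1 + w))`, `‖c‖ ≤ 200 ε`.  (a) `MapsTo`: if `‖w‖ < δ`: `Re c ≤ -65 ε`, `‖c‖ ≤ 111 ε`.  If
`1 - δ < ‖u‖`: in the compact sector clear; otherwise `3 Re u ≤ 2 ‖u‖`, `Re φ ≤ -1/8`, and with
`X = 1 + Re w + δ ≥ 0`: `Re c ≤ - ε (0.08 + 88 X)`,
`‖c‖ ≤ ε (22.1 + 88 X + 88 √(2.01 X)) ≤ 300 |Re c|`.  (b) `0 ≤ τ < 1`: if `Re w ≤ - ‖w‖ / 300` move
from `Φ (u, w)` by `88 ε (1 - τ) w`; otherwise `Re (φ u - 88 (1 + τ w)) ≤ -65`.  (c): move by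
`- 88 ε σ`.  Needs CNE. -/
def HFIStmt : Prop :=
  ∀ (r : Cn 2 → ℝ) (x ν : Cn 2) (ψ : ℂ → Cn 2) (φ : ℂ → ℂ), ContDiff ℝ 1 r →
    (∀ c : ℂ, fderiv ℝ r x (c • ν) = c.re) → Aux φ → DifferentiableOn ℂ ψ (ball 0 2) → ψ 0 = x →
    (∀ u ∈ ball (0 : ℂ) 2, r (ψ u) ≤ 0) →
    (∀ u ∈ ball (0 : ℂ) 2, ‖u‖ < 2 * u.re → r (ψ u) < 0) →
    ∃ ρ ε : ℝ, 0 < ρ ∧ ρ ≤ 1 ∧ 0 < ε ∧
      DifferentiableOn ℂ (Phi ψ φ ν ρ ε) (BD (1 / 2000)) ∧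
      MapsTo (Phi ψ φ ν ρ ε) (HF (1 / 2000)) {z | r z < 0} ∧
      (∀ p ∈ BD (1 / 2000), r (Phi ψ φ ν ρ ε p) < 0 → ∀ τ : ℝ, 0 ≤ τ → τ ≤ 1 →
        r (Phi ψ φ ν ρ ε (p.1, (τ : ℂ) * p.2)) < 0) ∧
      ∀ p ∈ BD (1 / 2000), r (Phi ψ φ ν ρ ε p) ≤ 0 →
        ∃ σ₀ > 0, ∀ σ : ℝ, 0 < σ → σ < σ₀ → r (Phi ψ φ ν ρ ε (p.1, p.2 + (σ : ℂ))) < 0

/-- EXB: extension over the boundary.  Proof: HEX for `f^[m i] ∘ Φ` on `HF δ` gives `F i` on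
`BD (δ / 2)`, `F i = f^[m i] ∘ Φ` on `HF (δ / 2)`.  The closure of `HF (δ / 2)` is a compact subset of
`HF δ`, so by LIM of board PHS the convergence to `h ∘ Φ` is uniform on it; LIX gives `G`.  RKC, RKE for
the rank (`jac h = 0` in dimension two).  If `p ∈ BD (δ/2)` and `r (Φ p) < 0`, then for fixed `p.1`
the set of `w` with `‖w‖ < 1 + δ/2`, `r (Φ (p.1, w)) < 0` is open and star-shaped at `0`, so by the
identity theorem in one variable `F i = f^[m i] ∘ Φ` at `p`, and `G p = h (Φ p)`.  If `r (Φ p) = 0` let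
`p' = (p.1, p.2 + σ)`, `σ → 0`: `F i p' = f^[m i] (Φ p') ∈ D`, and `Φ p'` tends to a point outside
`D`, so `F i p` is in the closure of `D` and not in `D` (properness), so `r (F i p) = 0`; let
`i → ∞`.  Needs LIM ITP CNN HEX LIX RKE RKC. -/
def EXBStmt : Prop :=
  ∀ (r : Cn 2 → ℝ) (f h : Cn 2 → Cn 2) (m : ℕ → ℕ) (Φ : ℂ × ℂ → Cn 2) (δ : ℝ), SD r →
    ProperSelf {z | r z < 0} f →
    (∀ z, r z < 0 → Tendsto (fun i => f^[m i] z) atTop (𝓝 (h z))) →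
    (∀ z, r z < 0 → jac h z = 0) → 0 < δ → δ < 1 → DifferentiableOn ℂ Φ (BD δ) →
    MapsTo Φ (HF δ) {z | r z < 0} →
    (∀ p ∈ BD δ, r (Φ p) < 0 → ∀ τ : ℝ, 0 ≤ τ → τ ≤ 1 → r (Φ (p.1, (τ : ℂ) * p.2)) < 0) →
    (∀ p ∈ BD δ, r (Φ p) ≤ 0 →
      ∃ σ₀ > 0, ∀ σ : ℝ, 0 < σ → σ < σ₀ → r (Φ (p.1, p.2 + (σ : ℂ))) < 0) →
    ∃ G : ℂ × ℂ → Cn 2, DifferentiableOn ℂ G (BD (δ / 2)) ∧ RankOne G (BD (δ / 2)) ∧
      (∀ p ∈ BD (δ / 2), r (Φ p) < 0 → G p = h (Φ p)) ∧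
      ∀ p ∈ BD (δ / 2), r (Φ p) = 0 → r (G p) = 0

/-- GRA: the values on the graph.  Proof: `gr φ 0 = -1 + 1/176`, and `Phi (u, gr φ u) = ψ (ρ u)`.  The
map `u ↦ G (u, gr φ u)` is holomorphic near `0` and equals `h (ψ (ρ u)) = ψ (ρ u)` in the sector
`‖u‖ < 2 Re u`; identity theorem on a small ball. -/
def GRAStmt : Prop :=
  ∀ (r : Cn 2 → ℝ) (h : Cn 2 → Cn 2) (ν : Cn 2) (ψ : ℂ → Cn 2) (φ : ℂ → ℂ) (ρ ε δ : ℝ)
    (G : ℂ × ℂ → Cn 2), Aux φ → DifferentiableOn ℂ ψ (ball 0 2) → 0 < ρ → ρ ≤ 1 → 0 < δ → δ < 1 →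
    (∀ u ∈ ball (0 : ℂ) 2, ‖u‖ < 2 * u.re → r (ψ u) < 0 ∧ h (ψ u) = ψ u) →
    DifferentiableOn ℂ G (BD δ) →
    (∀ p ∈ BD δ, r (Phi ψ φ ν ρ ε p) < 0 → G p = h (Phi ψ φ ν ρ ε p)) →
    ∃ κ > 0, ∀ u ∈ ball (0 : ℂ) κ, (u, gr φ u) ∈ BD δ ∧ G (u, gr φ u) = ψ ((ρ : ℂ) * u)

/-- TAN: the disc is tangent to the boundary.  Proof: `ψ u - x = u^m c + O(u^(m+1))`, so
`r (ψ u) = fderiv r x (u^m c) + o(|u|^m)`; as `r (ψ u) ≤ 0` for all arguments of `u`,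
`fderiv r x (ζ c) = 0` for all `ζ ∈ ℂ`. -/
def TANStmt : Prop :=
  ∀ (r : Cn 2 → ℝ) (x : Cn 2) (ψ : ℂ → Cn 2) (m : ℕ) (C κ₀ : ℝ), ContDiff ℝ 1 r → r x = 0 →
    DifferentiableOn ℂ ψ (ball 0 2) → ψ 0 = x → (∀ u ∈ ball (0 : ℂ) 2, r (ψ u) ≤ 0) → 1 ≤ m →
    0 < κ₀ → (∀ u ∈ ball (0 : ℂ) κ₀, ‖ψ u - x‖ ≤ C * ‖u‖ ^ m) →
    ∀ η > 0, ∃ κ > 0, ∀ u ∈ ball (0 : ℂ) κ, -(η * ‖u‖ ^ m) ≤ r (ψ u)

/-- FIN: the contradiction.  Proof: let `m`, `c`, `C` be as in ORD for `ψ` (`m = 1` and the Lipschitz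
bounds if `deriv ψ 0 ≠ 0`), and `E (u, ω) = G (u, gr φ u + ω)` near `(0, 0)`: rank one,
`E (u, 0) = ψ (ρ u)`, so LEV applies (with `c ρ^m`, `C ρ^m`); let `Λ` be a Lipschitz constant of `E`.
Let `u₀ > 0` be small.  By TAN and CNE there is `0 ≤ b ≤ 4 η (ρ u₀)^m` with `r (ψ (ρ u₀) + b ν) = 0`
(intermediate value).  With `ω₀ = - b / (88 ε)` and `P = (u₀, gr φ u₀ + ω₀)`: `Phi P = ψ (ρ u₀) + b ν`,
so `r (G P) = 0`.  By LEV (`ρ := u₀`) `G P = E (u₀, ω₀) = E (u', 0) = ψ (ρ u')`, `‖u'‖ ≤ L u₀`, and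
`‖ψ (ρ u') - ψ (ρ u₀)‖ ≤ Λ |ω₀|`, which is small compared to `u₀^m`.  If `deriv ψ 0 ≠ 0`:
`‖u' - u₀‖ ≤ u₀ / 10`, so `‖u'‖ < 2 Re u'` and `r (ψ (ρ u')) < 0`.  Otherwise `u' ≠ 0`, since
`‖ψ (ρ u₀) - x‖ ≥ c (ρ u₀)^m`, and again `r (ψ (ρ u')) < 0`.  Contradiction.
Needs ORD TAN CNE LEV. -/
def FINStmt : Prop :=
  ∀ (r : Cn 2 → ℝ) (x ν : Cn 2) (ψ : ℂ → Cn 2) (φ : ℂ → ℂ) (ρ ε δ κ : ℝ) (G : ℂ × ℂ → Cn 2),
    ContDiff ℝ 1 r → r x = 0 → (∀ c : ℂ, fderiv ℝ r x (c • ν) = c.re) → Aux φ →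
    DifferentiableOn ℂ ψ (ball 0 2) → ψ 0 = x → (∀ u ∈ ball (0 : ℂ) 2, r (ψ u) ≤ 0) →
    (∀ u ∈ ball (0 : ℂ) 2, ‖u‖ < 2 * u.re → r (ψ u) < 0) →
    (deriv ψ 0 ≠ 0 ∨ ∀ u ∈ ball (0 : ℂ) 2, u ≠ 0 → r (ψ u) < 0) →
    0 < ρ → ρ ≤ 1 → 0 < ε → 0 < δ → δ < 1 → 0 < κ →
    DifferentiableOn ℂ G (BD δ) → RankOne G (BD δ) →
    (∀ u ∈ ball (0 : ℂ) κ, (u, gr φ u) ∈ BD δ ∧ G (u, gr φ u) = ψ ((ρ : ℂ) * u)) →
    (∀ p ∈ BD δ, r (Phi ψ φ ν ρ ε p) = 0 → r (G p) = 0) → False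

/-- KEY: the limit maps `D` to itself.  Proof: otherwise SEL gives `ψ`; `x = ψ 0`, `r x = 0`
(`closure D ⊆ {r ≤ 0}`), `ν` from NUU, `φ` from POI, HFI, EXB with `δ = 1/2000`, GRA and FIN with
`δ/2 = 1/4000`.  Needs SEL NUU POI HFI EXB GRA FIN. -/
def KEYStmt : Prop :=
  ∀ (r : Cn 2 → ℝ) (C₀ : Set (Cn 2)) (f h : Cn 2 → Cn 2) (m : ℕ → ℕ), SD r →
    ProperSelf {z | r z < 0} f →
    (∀ z, r z < 0 → Tendsto (fun i => f^[m i] z) atTop (𝓝 (h z))) →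
    (∀ z, r z < 0 → jac h z = 0) → DifferentiableOn ℂ h {z | r z < 0} →
    MapsTo h {z | r z < 0} (closure {z | r z < 0}) → IsOpen C₀ → C₀.Nonempty →
    C₀ ⊆ {z | r z < 0} → (∀ z ∈ C₀, r (h z) < 0 ∧ h (h z) = h z) →
    (∀ z, r z < 0 → z ∈ closure C₀ → z ∉ C₀ → ¬ r (h z) < 0) → C₀ = {z | r z < 0}

/-- MAI: the theorem.  Proof: see the head of the file.  `g` not constant: then it is not constant near
`z` (IDN), so on some complex line through `z`; `γ t = g (z + t v)` for small `t` has values in `D`,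
`h (γ t) = γ t`, and `γ' t₀ ≠ 0` for some small `t₀`.  ASM of board LPC with `g` (constant) or with `h`
(`jac = 0` in dimension two means rank at most one).
Needs IDN ASM LI1 FU2 RET HHH KEY. -/
def MAIStmt : Prop :=
  ∀ (r : Cn 2 → ℝ) (f : Cn 2 → Cn 2) (k : ℕ → ℕ) (z w : Cn 2), SD r →
    ProperSelf {z | r z < 0} f → StrictMono k → r z < 0 → r w < 0 →
    Tendsto (fun j => f^[k j] z) atTop (𝓝 w) → Inv {z | r z < 0} f ∨ Psc {z | r z < 0}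

end Pool.SMD
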